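import Pool.Agent.helper55.AsympMain

set_option autoImplicit false

open MeasureTheory Filter Topology Pool.Agent.helper55.TSP

namespace Pool.Agent.Results.MP_3f7b2e_co.Asymptotic

/-- Exact high-dimensional asymptotics of the worst-case Euclidean travelling salesman constant
in terms of the sphere packing density: `α'_d = (2/√(2πe)) θ_d^{1/d} + o(1)`. Hence
`liminf α'_d = (2/√(2πe)) liminf θ_d^{1/d}`, `limsup α'_d = (2/√(2πe)) limsup θ_d^{1/d}`, and
`lim α'_d` exists if and only if `lim θ_d^{1/d}` exists. -/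
theorem result :
    Tendsto (fun d : ℕ => alpha' d -
      2 / √(2 * Real.pi * Real.exp 1) * theta d ^ ((1 : ℝ) / d)) atTop (𝓝 0) ∧
    liminf alpha' atTop =
      2 / √(2 * Real.pi * Real.exp 1) * liminf (fun d : ℕ => theta d ^ ((1 : ℝ) / d)) atTop ∧
    limsup alpha' atTop =
      2 / √(2 * Real.pi * Real.exp 1) * limsup (fun d : ℕ => theta d ^ ((1 : ℝ) / d)) atTop ∧
    ((∃ L : ℝ, Tendsto alpha' atTop (𝓝 L)) ↔
      ∃ t : ℝ, Tendsto (fun d : ℕ => theta d ^ ((1 : ℝ) / d)) atTop (𝓝 t)) :=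
  ⟨main_tendsto, liminf_alpha', limsup_alpha', exists_lim_iff⟩

end Pool.Agent.Results.MP_3f7b2e_co.Asymptotic
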