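import Pool.Agent.helper55.AlphaBounds

set_option autoImplicit false

open MeasureTheory Filter Topology Pool.Agent.helper55.TSP

namespace Pool.Agent.Results.MP_3f7b2e_co.TwoSided

/-- In every dimension `d ≥ 2` the worst-case constant `α_d` lies between `c` and `(d/(d-1)) c`,
where `c = 2 (θ_d/V_d)^{1/d}` and `V_d` is the volume of the unit ball of `ℝ^d`. -/
theorem result (d : ℕ) (hd : 2 ≤ d) :
    2 * (theta d / volume.real (Metric.ball (0 : EuclideanSpace ℝ (Fin d)) 1)) ^ ((1 : ℝ) / d)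
      ≤ alpha d ∧
    alpha d ≤ (d : ℝ) / ((d : ℝ) - 1) *
      (2 * (theta d / volume.real (Metric.ball (0 : EuclideanSpace ℝ (Fin d)) 1)) ^
        ((1 : ℝ) / d)) :=
  ⟨alpha_lower hd, alpha_upper hd⟩

end Pool.Agent.Results.MP_3f7b2e_co.TwoSided
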